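import Pool.Agent.Results.MP_fbc7b8_lc.NoEffectiveLovasz

/-!
# Recursive degree-bounded bipartitions of highly recursive multigraphs
-/

set_option autoImplicit false

namespace Pool.Agent.Results.MP_fbc7b8_lc.MultigraphNegative

open Pool.Agent.Results.MP_fbc7b8_lc.NoEffectiveLovasz

/-- The degree of `x` in the set `W` in the multigraph with `m x y` parallel edges between `x`
and `y`: the number of edges between `x` and vertices of `W` (the edges between `x` and `y` are
numbered `0, …, m x y - 1`). -/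
noncomputable def mdegIn (m : ℕ → ℕ → ℕ) (W : Set ℕ) (x : ℕ) : ℕ :=
  {p : ℕ × ℕ | p.1 ∈ W ∧ p.2 < m x p.1}.ncard

/-- A highly recursive multigraph with vertex set `ℕ` and `m x y` parallel edges between `x` and
`y`, without loops: `m` is recursive, all degrees are finite and the degree function is
recursive. -/
structure HighlyRecursiveMulti (m : ℕ → ℕ → ℕ) : Prop where
  symm : ∀ x y, m x y = m y x
  loopless : ∀ x, m x x = 0
  recM : Computable (fun p : ℕ × ℕ => m p.1 p.2)
  locFin : ∀ x, {y | m x y ≠ 0}.Finite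
  recDeg : Computable (fun x => mdegIn m Set.univ x)

/-! ### multigraphs -/

open Classical in
/-- every edge replaced by `t` parallel edges -/
noncomputable def mult (t : ℕ) (G : ℕ → ℕ → Prop) (x y : ℕ) : ℕ := if G x y then t else 0

theorem mult_pos {t : ℕ} {G : ℕ → ℕ → Prop} {x y : ℕ} (h : G x y) : mult t G x y = t := if_pos h
theorem mult_neg {t : ℕ} {G : ℕ → ℕ → Prop} {x y : ℕ} (h : ¬ G x y) : mult t G x y = 0 := if_neg h

theorem mdeg_mult {t : ℕ} (G : ℕ → ℕ → Prop) (W : Set ℕ) (x : ℕ) :
    mdegIn (mult t G) W x = t * degIn G W x := by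
  have : {p : ℕ × ℕ | p.1 ∈ W ∧ p.2 < mult t G x p.1} =
      {y | y ∈ W ∧ G x y} ×ˢ ((Finset.range t : Finset ℕ) : Set ℕ) := by
    ext ⟨y, i⟩
    simp only [Set.mem_prod, Finset.coe_range, Set.mem_Iio]
    change (y ∈ W ∧ i < mult t G x y) ↔ ((y ∈ W ∧ G x y) ∧ i < t)
    by_cases h : G x y
    · rw [mult_pos h]; tauto
    · rw [mult_neg h]; simp [h]
  unfold mdegIn degIn
  rw [this, Set.ncard_prod, Set.ncard_coe_finset, Finset.card_range, mul_comm]

theorem multi_highly {q : ℕ} (hq : 0 < q) (t : ℕ) : HighlyRecursiveMulti (mult t (E q)) where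
  symm := by
    intro x y
    by_cases h : E q x y
    · rw [mult_pos h, mult_pos (E_symm q x y h)]
    · rw [mult_neg h, mult_neg (fun h' => h (E_symm q y x h'))]
  loopless := by
    intro x
    exact mult_neg (E_irrefl q x)
  recM := by
    classical
    obtain ⟨hd, h⟩ := E_comp q
    refine (Computable.cond h (Computable.const t) (Computable.const 0)).of_eq ?_
    intro p
    by_cases hp : E q p.1 p.2
    · rw [mult_pos hp]; simp [hp]
    · rw [mult_neg hp]; simp [hp]
  locFin := by
    intro x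
    refine (E_fin hq x).subset ?_
    intro y hy
    by_contra h
    exact hy (mult_neg h)
  recDeg := by
    have : (fun x => mdegIn (mult t (E q)) Set.univ x) = fun x => t * dgr q x := by
      funext x
      rw [mdeg_mult, deg_eq hq]
    rw [this]
    exact (Primrec.nat_mul.comp (Primrec.const t) (dgr_pr q)).to_comp

/-- The question of the problem file, with its bounds `≤ n1`, `≤ n2`, has a negative answer for
multigraphs: for `n1 = 3 a + 2`, `n2 = 3 b + 2` with `a ≥ 1`, `b ≥ a + 2` there is a highly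
recursive multigraph on `ℕ` with maximum degree `n1 + n2 - 1` and no partition of the vertex set
into recursive sets `V1, V2` with all degrees `≤ n1` inside `V1` and `≤ n2` inside `V2`. -/
theorem result :
    ∀ a b : ℕ, 1 ≤ a → a + 2 ≤ b →
      ∃ m : ℕ → ℕ → ℕ, HighlyRecursiveMulti m ∧
        IsGreatest (Set.range (fun x => mdegIn m Set.univ x)) ((3 * a + 2) + (3 * b + 2) - 1) ∧
        ¬ ∃ V1 V2 : Set ℕ, RecSet V1 ∧ RecSet V2 ∧ V1 ∪ V2 = Set.univ ∧ Disjoint V1 V2 ∧
          (∀ x ∈ V1, mdegIn m V1 x ≤ 3 * a + 2) ∧ (∀ x ∈ V2, mdegIn m V2 x ≤ 3 * b + 2) := by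
  intro a b h1 h2
  refine ⟨mult 3 (E (a + b)), multi_highly (by omega) 3, ?_, ?_⟩
  · obtain ⟨⟨v, hv⟩, hub⟩ := degIn_max (a + b) (by omega)
    constructor
    · refine ⟨v, ?_⟩
      show mdegIn (mult 3 (E (a + b))) Set.univ v = _
      rw [mdeg_mult, hv]; omega
    · rintro _ ⟨x, rfl⟩
      show mdegIn (mult 3 (E (a + b))) Set.univ x ≤ _
      rw [mdeg_mult]
      have := hub ⟨x, rfl⟩
      omega
  · rintro ⟨V1, V2, r1, -, hu, hd, h3, h4⟩
    refine no_bip (n1 := a) (n2 := b) h1 h2 ⟨hu, hd, fun x hx => ?_, fun x hx => ?_⟩ r1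
    · have := h3 x hx
      rw [mdeg_mult] at this
      omega
    · have := h4 x hx
      rw [mdeg_mult] at this
      omega

end Pool.Agent.Results.MP_fbc7b8_lc.MultigraphNegative
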