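import Mathlib

/-!
# Lovász's partition theorem has no effective version for highly recursive graphs
-/

set_option autoImplicit false

namespace Pool.Agent.Results.MP_fbc7b8_lc.NoEffectiveLovasz

open Nat.Partrec (Code)
open Nat.Partrec.Code

/-- `W ⊆ ℕ` is recursive. -/
def RecSet (W : Set ℕ) : Prop := ComputablePred (fun x => x ∈ W)

/-- The degree of `x` in the set `W`: the number of neighbours of `x` that lie in `W`. -/
noncomputable def degIn (E : ℕ → ℕ → Prop) (W : Set ℕ) (x : ℕ) : ℕ := {y | y ∈ W ∧ E x y}.ncard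

/-- `(V, E)` is a highly recursive graph: simple, undirected, `V` and `E` recursive, all degrees
finite and the degree function recursive. -/
structure HighlyRecursive (V : Set ℕ) (E : ℕ → ℕ → Prop) : Prop where
  symm : ∀ x y, E x y → E y x
  irrefl : ∀ x, ¬ E x x
  mem : ∀ x y, E x y → x ∈ V ∧ y ∈ V
  recV : RecSet V
  recE : ComputablePred (fun p : ℕ × ℕ => E p.1 p.2)
  locFin : ∀ x, {y | E x y}.Finite
  recDeg : Computable (fun x => degIn E V x)

/-! ### codes of vertices -/

def de (v : ℕ) : ℕ := v.unpair.1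
def dd (v : ℕ) : ℕ := v.unpair.2.unpair.1
def dj (v : ℕ) : ℕ := v.unpair.2.unpair.2.unpair.1
def dg (v : ℕ) : ℕ := v.unpair.2.unpair.2.unpair.2
def cd (e d j g : ℕ) : ℕ := Nat.pair e (Nat.pair d (Nat.pair j g))

@[simp] theorem de_cd (e d j g : ℕ) : de (cd e d j g) = e := by simp [de, cd]
@[simp] theorem dd_cd (e d j g : ℕ) : dd (cd e d j g) = d := by simp [dd, cd]
@[simp] theorem dj_cd (e d j g : ℕ) : dj (cd e d j g) = j := by simp [dj, cd]
@[simp] theorem dg_cd (e d j g : ℕ) : dg (cd e d j g) = g := by simp [dg, cd]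
theorem cd_eta (v : ℕ) : cd (de v) (dd v) (dj v) (dg v) = v := by
  simp [de, dd, dj, dg, cd]
theorem cd_inj {e d j g e' d' j' g' : ℕ} :
    cd e d j g = cd e' d' j' g' ↔ e = e' ∧ d = d' ∧ j = j' ∧ g = g' := by
  constructor
  · intro h
    refine ⟨?_, ?_, ?_, ?_⟩
    · simpa using congrArg de h
    · simpa using congrArg dd h
    · simpa using congrArg dj h
    · simpa using congrArg dg h
  · rintro ⟨rfl, rfl, rfl, rfl⟩; rfl

theorem eq_cd_iff {v e d j g : ℕ} : v = cd e d j g ↔ de v = e ∧ dd v = d ∧ dj v = j ∧ dg v = g := by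
  constructor
  · rintro rfl; simp
  · rintro ⟨rfl, rfl, rfl, rfl⟩; exact (cd_eta v).symm

/-- the closing condition -/
def C (e d : ℕ) : Bool :=
  (Option.casesOn (evaln d (Denumerable.ofNat Code e) (cd e 0 0 0)) false
    (fun i => decide ((i + d) % 2 = 1)) : Bool)

def opn (e : ℕ) : ℕ → Bool
  | 0 => true
  | d + 1 => opn e d && !C e d

def leaf (e d : ℕ) : Bool := opn e d && C e d

theorem C_zero (e : ℕ) : C e 0 = false := by
  simp [C, evaln]

/-- adjacency inside the gadget (one orientation) -/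
def R (q g g' : ℕ) : Prop :=
  (g = 0 ∧ 2 ≤ g' ∧ g' < 2 + q) ∨ (g = 1 ∧ 2 + q ≤ g' ∧ g' < 2 + 2 * q) ∨
    (2 ≤ g ∧ g < 2 + 2 * q ∧ 2 ≤ g' ∧ g' < 2 + 2 * q ∧ g % 2 = 0 ∧ g' % 2 = 1)

def A (q v w : ℕ) : Prop :=
  de v = de w ∧ ((dg v = 0 ∧ dg w = 0 ∧ dd w = dd v + 1 ∧ dj w / q = dj v ∧
      opn (de v) (dd w) = true) ∨
    (dd v = dd w ∧ dj v = dj w ∧ leaf (de v) (dd v) = true ∧ R q (dg v) (dg w)))

def E (q v w : ℕ) : Prop := A q v w ∨ A q w v

theorem E_symm (q v w : ℕ) (h : E q v w) : E q w v := h.symm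

theorem R_irrefl (q g : ℕ) : ¬ R q g g := by
  unfold R; omega

theorem E_irrefl (q v : ℕ) : ¬ E q v v := by
  rintro (⟨-, (⟨-, -, h, -⟩ | ⟨-, -, -, h⟩)⟩ | ⟨-, (⟨-, -, h, -⟩ | ⟨-, -, -, h⟩)⟩)
  · omega
  · exact R_irrefl _ _ h
  · omega
  · exact R_irrefl _ _ h

/-! ### computability -/

theorem de_pr : Primrec de := Primrec.fst.comp Primrec.unpair
theorem dd_pr : Primrec dd := Primrec.fst.comp (Primrec.unpair.comp (Primrec.snd.comp Primrec.unpair))
theorem dj_pr : Primrec dj :=
  Primrec.fst.comp (Primrec.unpair.comp (Primrec.snd.comp (Primrec.unpair.comp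
    (Primrec.snd.comp Primrec.unpair))))
theorem dg_pr : Primrec dg :=
  Primrec.snd.comp (Primrec.unpair.comp (Primrec.snd.comp (Primrec.unpair.comp
    (Primrec.snd.comp Primrec.unpair))))

theorem C_pr : Primrec₂ C := by
  have h1 : Primrec (fun p : ℕ × ℕ => evaln p.2 (Denumerable.ofNat Code p.1) (cd p.1 0 0 0)) := by
    have h0 : Primrec (fun p : ℕ × ℕ => cd p.1 0 0 0) :=
      Primrec₂.natPair.comp Primrec.fst (Primrec.const _)
    have h1' : Primrec (fun p : ℕ × ℕ => (p.2, Denumerable.ofNat Code p.1)) :=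
      Primrec.pair Primrec.snd ((Primrec.ofNat Code).comp Primrec.fst)
    exact primrec_evaln.comp (h1'.pair h0)
  have h2 : Primrec₂ (fun (p : ℕ × ℕ) (i : ℕ) => decide ((i + p.2) % 2 = 1)) := by
    have : PrimrecPred (fun t : (ℕ × ℕ) × ℕ => (t.2 + t.1.2) % 2 = 1) :=
      Primrec.eq.comp (Primrec.nat_mod.comp (Primrec.nat_add.comp Primrec.snd
        (Primrec.snd.comp Primrec.fst)) (Primrec.const 2)) (Primrec.const 1)
    exact this.decide
  exact (Primrec.option_casesOn h1 (Primrec.const false) h2)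

theorem opn_pr : Primrec₂ opn := by
  have h : Primrec (fun p : ℕ × ℕ => (Nat.rec true (fun d IH => IH && !C p.1 d) p.2 : Bool)) := by
    refine Primrec.nat_rec' (f := fun p : ℕ × ℕ => p.2) (g := fun _ => true)
      (h := fun (p : ℕ × ℕ) (s : ℕ × Bool) => s.2 && !C p.1 s.1)
      Primrec.snd (Primrec.const true) ?_
    refine Primrec.and.comp (Primrec.snd.comp Primrec.snd) (Primrec.not.comp ?_)
    exact C_pr.comp (Primrec.fst.comp Primrec.fst) (Primrec.fst.comp Primrec.snd)
  refine h.of_eq ?_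
  rintro ⟨e, d⟩
  induction d with
  | zero => rfl
  | succ d ih => simp only [opn] at ih ⊢; rw [← ih]

theorem leaf_pr : Primrec₂ leaf := Primrec.and.comp₂ opn_pr C_pr

theorem R_pr (q : ℕ) {α : Type} [Primcodable α] {f g : α → ℕ} (hf : Primrec f) (hg : Primrec g) :
    PrimrecPred (fun a => R q (f a) (g a)) := by
  unfold R
  have e (m : ℕ) {f : α → ℕ} (hf : Primrec f) : PrimrecPred (fun a => f a = m) :=
    Primrec.eq.comp hf (Primrec.const m)
  have l (m : ℕ) {f : α → ℕ} (hf : Primrec f) : PrimrecPred (fun a => f a < m) :=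
    Primrec.nat_lt.comp hf (Primrec.const m)
  have r (m : ℕ) {f : α → ℕ} (hf : Primrec f) : PrimrecPred (fun a => m ≤ f a) :=
    Primrec.nat_le.comp (Primrec.const m) hf
  have m2 {f : α → ℕ} (hf : Primrec f) : Primrec (fun a => f a % 2) :=
    Primrec.nat_mod.comp hf (Primrec.const 2)
  exact (((e 0 hf).and ((r 2 hg).and (l _ hg)))).or
    (((e 1 hf).and ((r _ hg).and (l _ hg))).or
      ((r 2 hf).and ((l _ hf).and ((r 2 hg).and ((l _ hg).and ((e 0 (m2 hf)).and (e 1 (m2 hg))))))))

theorem A_pr (q : ℕ) {f g : ℕ × ℕ → ℕ} (hf : Primrec f) (hg : Primrec g) :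
    PrimrecPred (fun a => A q (f a) (g a)) := by
  unfold A
  have E1 : PrimrecPred (fun a => de (f a) = de (g a)) :=
    Primrec.eq.comp (de_pr.comp hf) (de_pr.comp hg)
  have E2 : PrimrecPred (fun a => dg (f a) = 0) := Primrec.eq.comp (dg_pr.comp hf) (Primrec.const 0)
  have E3 : PrimrecPred (fun a => dg (g a) = 0) := Primrec.eq.comp (dg_pr.comp hg) (Primrec.const 0)
  have E4 : PrimrecPred (fun a => dd (g a) = dd (f a) + 1) :=
    Primrec.eq.comp (dd_pr.comp hg) (Primrec.succ.comp (dd_pr.comp hf))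
  have E5 : PrimrecPred (fun a => dj (g a) / q = dj (f a)) :=
    Primrec.eq.comp (Primrec.nat_div.comp (dj_pr.comp hg) (Primrec.const q)) (dj_pr.comp hf)
  have E6 : PrimrecPred (fun a => opn (de (f a)) (dd (g a)) = true) :=
    Primrec.eq.comp (opn_pr.comp (de_pr.comp hf) (dd_pr.comp hg)) (Primrec.const true)
  have E7 : PrimrecPred (fun a => dd (f a) = dd (g a)) :=
    Primrec.eq.comp (dd_pr.comp hf) (dd_pr.comp hg)
  have E8 : PrimrecPred (fun a => dj (f a) = dj (g a)) :=
    Primrec.eq.comp (dj_pr.comp hf) (dj_pr.comp hg)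
  have E9 : PrimrecPred (fun a => leaf (de (f a)) (dd (f a)) = true) :=
    Primrec.eq.comp (leaf_pr.comp (de_pr.comp hf) (dd_pr.comp hf)) (Primrec.const true)
  exact E1.and ((E2.and (E3.and (E4.and (E5.and E6)))).or
    (E7.and (E8.and (E9.and (R_pr q (dg_pr.comp hf) (dg_pr.comp hg))))))

theorem E_pr (q : ℕ) : PrimrecPred (fun p : ℕ × ℕ => E q p.1 p.2) :=
  (A_pr q Primrec.fst Primrec.snd).or (A_pr q Primrec.snd Primrec.fst)

theorem E_comp (q : ℕ) : ComputablePred (fun p : ℕ × ℕ => E q p.1 p.2) := by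
  obtain ⟨hd, h⟩ := E_pr q
  exact ⟨hd, h.to_comp⟩

/-! ### counting -/

theorem le_deg {G : ℕ → ℕ → Prop} {W : Set ℕ} {x : ℕ} (hf : {y | G x y}.Finite) (S : Finset ℕ)
    (hS : ∀ y ∈ S, y ∈ W ∧ G x y) : S.card ≤ degIn G W x := by
  unfold degIn
  rw [← Set.ncard_coe_finset]
  exact Set.ncard_le_ncard (fun y hy => hS y (by simpa using hy))
    (hf.subset (fun y hy => hy.2))

theorem deg_add {G : ℕ → ℕ → Prop} {V1 V2 : Set ℕ} {x : ℕ} (hf : {y | G x y}.Finite)
    (hun : V1 ∪ V2 = Set.univ) (hd : Disjoint V1 V2) :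
    degIn G V1 x + degIn G V2 x = degIn G Set.univ x := by
  unfold degIn
  have f1 : {y | y ∈ V1 ∧ G x y}.Finite := hf.subset (fun y hy => hy.2)
  have f2 : {y | y ∈ V2 ∧ G x y}.Finite := hf.subset (fun y hy => hy.2)
  have hdis : Disjoint {y | y ∈ V1 ∧ G x y} {y | y ∈ V2 ∧ G x y} := by
    rw [Set.disjoint_left]
    intro y hy hy'
    exact Set.disjoint_left.mp hd hy.1 hy'.1
  rw [← Set.ncard_union_eq hdis f1 f2]
  congr 1
  ext y
  have : y ∈ V1 ∪ V2 := by rw [hun]; trivial
  constructor
  · rintro (h | h) <;> exact ⟨trivial, h.2⟩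
  · intro h
    rcases this with h1 | h1
    · exact Or.inl ⟨h1, h.2⟩
    · exact Or.inr ⟨h1, h.2⟩

theorem degIn_of_finset {G : ℕ → ℕ → Prop} {x : ℕ} (N : Finset ℕ) (hN : ∀ y, G x y ↔ y ∈ N)
    (W : Set ℕ) [DecidablePred (· ∈ W)] : degIn G W x = (N.filter (· ∈ W)).card := by
  unfold degIn
  rw [← Set.ncard_coe_finset]
  congr 1
  ext y
  simp [hN, and_comm]

theorem degIn_univ_of_finset {G : ℕ → ℕ → Prop} {x : ℕ} (N : Finset ℕ) (hN : ∀ y, G x y ↔ y ∈ N) :
    degIn G Set.univ x = N.card := by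
  classical
  rw [degIn_of_finset N hN]
  congr 1
  ext y
  simp

/-! ### neighbourhoods -/

/-- the neighbours of the vertex with code `v` -/
def nb (q v : ℕ) : Finset ℕ :=
  if dg v = 0 then
    (if opn (de v) (dd v) = true then
      (if dd v = 0 then ∅ else {cd (de v) (dd v - 1) (dj v / q) 0}) ∪
      (if C (de v) (dd v) = true then (Finset.Ico 2 (2 + q)).image (fun g => cd (de v) (dd v) (dj v) g)
        else (Finset.range q).image (fun i => cd (de v) (dd v + 1) (q * dj v + i) 0))
      else ∅)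
  else if dg v = 1 then
    (if leaf (de v) (dd v) = true then
      (Finset.Ico (2 + q) (2 + 2 * q)).image (fun g => cd (de v) (dd v) (dj v) g) else ∅)
  else if dg v < 2 + 2 * q then
    (if leaf (de v) (dd v) = true then
      insert (cd (de v) (dd v) (dj v) (if dg v < 2 + q then 0 else 1))
        (((Finset.Ico 2 (2 + 2 * q)).filter (fun g => g % 2 ≠ dg v % 2)).image
          (fun g => cd (de v) (dd v) (dj v) g)) else ∅)
  else ∅

theorem leaf_iff (e d : ℕ) : leaf e d = true ↔ opn e d = true ∧ C e d = true := by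
  simp [leaf]

theorem opn_succ (e d : ℕ) : opn e (d + 1) = true ↔ opn e d = true ∧ ¬ C e d = true := by
  simp [opn]

theorem nb_tree (q e d j : ℕ) (ho : opn e d = true) :
    nb q (cd e d j 0) = (if d = 0 then ∅ else {cd e (d - 1) (j / q) 0}) ∪
      (if C e d = true then (Finset.Ico 2 (2 + q)).image (fun g => cd e d j g)
        else (Finset.range q).image (fun i => cd e (d + 1) (q * j + i) 0)) := by
  simp [nb, ho]

theorem nb_tree' (q e d j : ℕ) (ho : ¬ opn e d = true) : nb q (cd e d j 0) = ∅ := by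
  simp [nb, ho]

theorem nb_hub (q e d j : ℕ) (hl : leaf e d = true) :
    nb q (cd e d j 1) = (Finset.Ico (2 + q) (2 + 2 * q)).image (fun g => cd e d j g) := by
  simp [nb, hl]

theorem nb_hub' (q e d j : ℕ) (hl : ¬ leaf e d = true) : nb q (cd e d j 1) = ∅ := by
  simp [nb, hl]

theorem nb_core (q e d j g : ℕ) (hg : 2 ≤ g) (hg' : g < 2 + 2 * q) (hl : leaf e d = true) :
    nb q (cd e d j g) = insert (cd e d j (if g < 2 + q then 0 else 1))
        (((Finset.Ico 2 (2 + 2 * q)).filter (fun g' => g' % 2 ≠ g % 2)).image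
          (fun g => cd e d j g)) := by
  have h0 : g ≠ 0 := by omega
  have h1 : g ≠ 1 := by omega
  simp only [nb, dg_cd, de_cd, dd_cd, dj_cd, h0, h1, hg', hl, if_true, if_false]

theorem nb_core' (q e d j g : ℕ) (hg : 2 ≤ g) (hl : ¬ leaf e d = true) :
    nb q (cd e d j g) = ∅ := by
  have h0 : g ≠ 0 := by omega
  have h1 : g ≠ 1 := by omega
  simp only [nb, dg_cd, de_cd, dd_cd, dj_cd, h0, h1, hl, if_false]
  simp

theorem nb_out (q e d j g : ℕ) (hg' : ¬ g < 2 + 2 * q) :
    nb q (cd e d j g) = ∅ := by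
  have h0 : g ≠ 0 := by omega
  have h1 : g ≠ 1 := by omega
  simp only [nb, dg_cd, de_cd, dd_cd, dj_cd, h0, h1, hg', if_false]

theorem E_cd (q e d j g e' d' j' g' : ℕ) : E q (cd e d j g) (cd e' d' j' g') ↔
    ((e = e' ∧ ((g = 0 ∧ g' = 0 ∧ d' = d + 1 ∧ j' / q = j ∧ opn e d' = true) ∨
      (d = d' ∧ j = j' ∧ leaf e d = true ∧ R q g g'))) ∨
    (e' = e ∧ ((g' = 0 ∧ g = 0 ∧ d = d' + 1 ∧ j / q = j' ∧ opn e' d = true) ∨
      (d' = d ∧ j' = j ∧ leaf e' d' = true ∧ R q g' g)))) := by
  simp only [E, A, de_cd, dd_cd, dj_cd, dg_cd]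

theorem mem_nb {q : ℕ} (hq : 0 < q) (v w : ℕ) : E q v w ↔ w ∈ nb q v := by
  obtain ⟨e, d, j, g, rfl⟩ : ∃ e d j g, v = cd e d j g := ⟨_, _, _, _, (cd_eta v).symm⟩
  obtain ⟨e', d', j', g', rfl⟩ : ∃ e d j g, w = cd e d j g := ⟨_, _, _, _, (cd_eta w).symm⟩
  have key : ∀ i, i < q → (q * j + i) / q = j := by
    intro i hi
    rw [Nat.mul_add_div hq, Nat.div_eq_of_lt hi, Nat.add_zero]
  have key2 : ∀ j', j' / q = j → ∃ i < q, j' = q * j + i := by
    intro j' h
    refine ⟨j' % q, Nat.mod_lt _ hq, ?_⟩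
    rw [← h]; exact (Nat.div_add_mod j' q).symm
  rw [E_cd]
  by_cases hg0 : g = 0
  · subst hg0
    by_cases ho : opn e d = true
    · rw [nb_tree q e d j ho]
      by_cases hC : C e d = true
      · have hl : leaf e d = true := by rw [leaf_iff]; exact ⟨ho, hC⟩
        have ho' : opn e (d + 1) ≠ true := by rw [Ne, opn_succ]; tauto
        rw [if_pos hC]
        simp only [Finset.mem_union, Finset.mem_image, Finset.mem_Ico]
        constructor
        · rintro (⟨rfl, (⟨-, -, rfl, -, h⟩ | ⟨rfl, rfl, -, h⟩)⟩ | ⟨rfl, (⟨rfl, -, rfl, rfl, -⟩ | ⟨rfl, rfl, -, h⟩)⟩)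
          · exact absurd h ho'
          · right
            refine ⟨g', ?_, rfl⟩
            unfold R at h; omega
          · left
            simp
          · unfold R at h; omega
        · rintro (h | ⟨g'', hg'', h⟩)
          · by_cases hd : d = 0
            · simp [hd] at h
            · simp only [hd, if_false, Finset.mem_singleton, cd_inj] at h
              obtain ⟨rfl, rfl, rfl, rfl⟩ := h
              right
              refine ⟨rfl, Or.inl ⟨by trivial, by trivial, by omega, rfl, ho⟩⟩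
          · rw [cd_inj] at h
            obtain ⟨rfl, rfl, rfl, rfl⟩ := h
            left
            refine ⟨rfl, Or.inr ⟨rfl, rfl, hl, ?_⟩⟩
            unfold R; omega
      · have hl : ¬ leaf e d = true := by rw [leaf_iff]; tauto
        have ho' : opn e (d + 1) = true := by rw [opn_succ]; exact ⟨ho, hC⟩
        rw [if_neg hC]
        simp only [Finset.mem_union, Finset.mem_image, Finset.mem_range]
        constructor
        · rintro (⟨rfl, (⟨-, rfl, rfl, h1, -⟩ | ⟨rfl, rfl, h, -⟩)⟩ | ⟨rfl, (⟨rfl, -, rfl, rfl, -⟩ | ⟨rfl, rfl, h, -⟩)⟩)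
          · right
            obtain ⟨i, hi, rfl⟩ := key2 j' h1
            exact ⟨i, hi, rfl⟩
          · exact absurd h hl
          · left
            simp
          · exact absurd h hl
        · rintro (h | ⟨i, hi, h⟩)
          · by_cases hd : d = 0
            · simp [hd] at h
            · simp only [hd, if_false, Finset.mem_singleton, cd_inj] at h
              obtain ⟨rfl, rfl, rfl, rfl⟩ := h
              right
              refine ⟨rfl, Or.inl ⟨by trivial, by trivial, by omega, rfl, ho⟩⟩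
          · rw [cd_inj] at h
            obtain ⟨rfl, rfl, rfl, rfl⟩ := h
            left
            exact ⟨rfl, Or.inl ⟨by trivial, by trivial, rfl, key i hi, ho'⟩⟩
    · have hl : ¬ leaf e d = true := by rw [leaf_iff]; tauto
      have ho' : ¬ opn e (d + 1) = true := by rw [opn_succ]; tauto
      rw [nb_tree' q e d j ho]
      constructor
      · rintro (⟨rfl, (⟨-, -, rfl, -, h⟩ | ⟨rfl, rfl, h, -⟩)⟩ | ⟨rfl, (⟨rfl, -, rfl, rfl, h⟩ | ⟨rfl, rfl, h, -⟩)⟩)
        · exact absurd h ho'
        · exact absurd h hl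
        · exact absurd h ho
        · exact absurd h hl
      · intro h; simp at h
  · by_cases hg1 : g = 1
    · subst hg1
      by_cases hl : leaf e d = true
      · rw [nb_hub q e d j hl]
        simp only [Finset.mem_image, Finset.mem_Ico]
        constructor
        · rintro (⟨rfl, (⟨h, -⟩ | ⟨rfl, rfl, -, h⟩)⟩ | ⟨rfl, (⟨-, h, -⟩ | ⟨rfl, rfl, -, h⟩)⟩)
          · omega
          · refine ⟨g', ?_, rfl⟩
            unfold R at h; omega
          · omega
          · unfold R at h; omega
        · rintro ⟨g'', hg'', h⟩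
          rw [cd_inj] at h
          obtain ⟨rfl, rfl, rfl, rfl⟩ := h
          left
          refine ⟨rfl, Or.inr ⟨rfl, rfl, hl, ?_⟩⟩
          unfold R; omega
      · rw [nb_hub' q e d j hl]
        constructor
        · rintro (⟨rfl, (⟨h, -⟩ | ⟨rfl, rfl, h, -⟩)⟩ | ⟨rfl, (⟨-, h, -⟩ | ⟨rfl, rfl, h, -⟩)⟩)
          · omega
          · exact absurd h hl
          · omega
          · exact absurd h hl
        · intro h; simp at h
    · by_cases hg2 : g < 2 + 2 * q
      · by_cases hl : leaf e d = true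
        · rw [nb_core q e d j g (by omega) hg2 hl]
          simp only [Finset.mem_image, Finset.mem_Ico, Finset.mem_insert,
            Finset.mem_filter]
          constructor
          · rintro (⟨rfl, (⟨h, -⟩ | ⟨rfl, rfl, -, h⟩)⟩ | ⟨rfl, (⟨-, h, -⟩ | ⟨rfl, rfl, -, h⟩)⟩)
            · omega
            · right
              refine ⟨g', ?_, rfl⟩
              unfold R at h; omega
            · omega
            · unfold R at h
              by_cases hg' : g' < 2
              · left
                rw [cd_inj]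
                refine ⟨rfl, rfl, rfl, ?_⟩
                split_ifs <;> omega
              · right
                refine ⟨g', ?_, rfl⟩
                omega
          · rintro (h | ⟨g'', hg'', h⟩)
            · rw [cd_inj] at h
              obtain ⟨rfl, rfl, rfl, hgg⟩ := h
              right
              refine ⟨rfl, Or.inr ⟨rfl, rfl, hl, ?_⟩⟩
              unfold R
              split_ifs at hgg <;> omega
            · rw [cd_inj] at h
              obtain ⟨rfl, rfl, rfl, rfl⟩ := h
              by_cases hp : g % 2 = 0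
              · left
                refine ⟨rfl, Or.inr ⟨rfl, rfl, hl, ?_⟩⟩
                unfold R; omega
              · right
                refine ⟨rfl, Or.inr ⟨rfl, rfl, hl, ?_⟩⟩
                unfold R; omega
        · rw [nb_core' q e d j g (by omega) hl]
          constructor
          · rintro (⟨rfl, (⟨h, -⟩ | ⟨rfl, rfl, h, -⟩)⟩ | ⟨rfl, (⟨-, h, -⟩ | ⟨rfl, rfl, h, -⟩)⟩)
            · omega
            · exact absurd h hl
            · omega
            · exact absurd h hl
          · intro h; simp at h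
      · rw [nb_out q e d j g hg2]
        constructor
        · rintro (⟨rfl, (⟨h, -⟩ | ⟨rfl, rfl, -, h⟩)⟩ | ⟨rfl, (⟨-, h, -⟩ | ⟨rfl, rfl, -, h⟩)⟩)
          · omega
          · unfold R at h; omega
          · omega
          · unfold R at h; omega
        · intro h; simp at h

theorem E_fin {q : ℕ} (hq : 0 < q) (x : ℕ) : {y | E q x y}.Finite := by
  refine (nb q x).finite_toSet.subset ?_
  intro y hy
  exact (mem_nb hq x y).mp hy

/-! ### degrees -/

theorem card_odd (n : ℕ) : ((Finset.range (2 * n)).filter (fun g => g % 2 = 1)).card = n := by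
  induction n with
  | zero => simp
  | succ n ih =>
    have : 2 * (n + 1) = 2 * n + 1 + 1 := by ring
    rw [this, Finset.range_add_one, Finset.filter_insert, Finset.range_add_one,
      Finset.filter_insert, if_pos (by omega), if_neg (by omega),
      Finset.card_insert_of_notMem (by simp), ih]

theorem card_par (q g : ℕ) :
    ((Finset.Ico 2 (2 + 2 * q)).filter (fun g' => g' % 2 ≠ g % 2)).card = q := by
  refine Eq.trans ?_ (card_odd q)
  by_cases hg : g % 2 = 0
  · refine Finset.card_bij' (fun x _ => x - 2) (fun x _ => x + 2) ?_ ?_ ?_ ?_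
    · intro a ha
      simp only [Finset.mem_filter, Finset.mem_Ico, Finset.mem_range] at ha ⊢
      omega
    · intro a ha
      simp only [Finset.mem_filter, Finset.mem_Ico, Finset.mem_range] at ha ⊢
      omega
    · intro a ha
      simp only [Finset.mem_filter, Finset.mem_Ico] at ha
      omega
    · intro a ha
      simp
  · refine Finset.card_bij' (fun x _ => x - 1) (fun x _ => x + 1) ?_ ?_ ?_ ?_
    · intro a ha
      simp only [Finset.mem_filter, Finset.mem_Ico, Finset.mem_range] at ha ⊢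
      omega
    · intro a ha
      simp only [Finset.mem_filter, Finset.mem_Ico, Finset.mem_range] at ha ⊢
      omega
    · intro a ha
      simp only [Finset.mem_filter, Finset.mem_Ico] at ha
      omega
    · intro a ha
      simp

theorem cd_inj4 (e d j : ℕ) : Function.Injective (fun g => cd e d j g) := by
  intro a b h
  exact (cd_inj.mp h).2.2.2

/-- the degree -/
def dgr (q v : ℕ) : ℕ :=
  if dg v = 0 then
    (if opn (de v) (dd v) = true then (if dd v = 0 then q else q + 1) else 0)
  else if dg v = 1 then (if leaf (de v) (dd v) = true then q else 0)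
  else if dg v < 2 + 2 * q then (if leaf (de v) (dd v) = true then q + 1 else 0)
  else 0

theorem dgr_le (q v : ℕ) : dgr q v ≤ q + 1 := by
  unfold dgr; split_ifs <;> omega

theorem card_nb (q v : ℕ) : (nb q v).card = dgr q v := by
  obtain ⟨e, d, j, g, rfl⟩ : ∃ e d j g, v = cd e d j g := ⟨_, _, _, _, (cd_eta v).symm⟩
  have hc : ∀ (S : Finset ℕ), (S.image (fun g => cd e d j g)).card = S.card := fun S =>
    Finset.card_image_of_injective S (cd_inj4 e d j)
  have hch : ((Finset.range q).image (fun i => cd e (d + 1) (q * j + i) 0)).card = q := by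
    rw [Finset.card_image_of_injective, Finset.card_range]
    intro a b h
    have := (cd_inj.mp h).2.2.1
    omega
  by_cases hg0 : g = 0
  · subst hg0
    by_cases ho : opn e d = true
    · rw [nb_tree q e d j ho, Finset.card_union_of_disjoint]
      · have h2 : (if C e d = true then (Finset.Ico 2 (2 + q)).image (fun g => cd e d j g)
            else (Finset.range q).image (fun i => cd e (d + 1) (q * j + i) 0)).card = q := by
          split_ifs
          · rw [hc]; simp
          · exact hch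
        rw [h2]
        by_cases hd : d = 0
        · subst hd
          simp [dgr, ho]
        · simp [dgr, ho, hd]; omega
      · by_cases hd : d = 0
        · simp [hd]
        · simp only [hd, if_false, Finset.disjoint_singleton_left]
          split_ifs
          · simp only [Finset.mem_image, cd_inj, not_exists, not_and]
            intro x _ _ h
            omega
          · simp only [Finset.mem_image, cd_inj, not_exists, not_and]
            intro x _ _ h
            omega
    · rw [nb_tree' q e d j ho]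
      simp [dgr, ho]
  · by_cases hg1 : g = 1
    · subst hg1
      by_cases hl : leaf e d = true
      · rw [nb_hub q e d j hl, hc]
        simp [dgr, hl]; omega
      · rw [nb_hub' q e d j hl]
        simp [dgr, hl]
    · by_cases hg2 : g < 2 + 2 * q
      · by_cases hl : leaf e d = true
        · rw [nb_core q e d j g (by omega) hg2 hl, Finset.card_insert_of_notMem, hc, card_par]
          · simp [dgr, hl, hg0, hg1, hg2]
          · simp only [Finset.mem_image, Finset.mem_filter, Finset.mem_Ico, cd_inj, not_exists,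
              not_and]
            intro x hx _ _ _ h
            split_ifs at h <;> omega
        · rw [nb_core' q e d j g (by omega) hl]
          simp [dgr, hl, hg0, hg1]
      · rw [nb_out q e d j g hg2]
        simp [dgr, hg0, hg1, hg2]

theorem deg_eq {q : ℕ} (hq : 0 < q) (v : ℕ) : degIn (E q) Set.univ v = dgr q v := by
  rw [degIn_univ_of_finset (nb q v) (mem_nb hq v), card_nb]

theorem dgr_pr (q : ℕ) : Primrec (dgr q) := by
  have e (m : ℕ) {f : ℕ → ℕ} (hf : Primrec f) : PrimrecPred (fun a => f a = m) :=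
    Primrec.eq.comp hf (Primrec.const m)
  have o : PrimrecPred (fun v => opn (de v) (dd v) = true) :=
    Primrec.eq.comp (opn_pr.comp de_pr dd_pr) (Primrec.const true)
  have l : PrimrecPred (fun v => leaf (de v) (dd v) = true) :=
    Primrec.eq.comp (leaf_pr.comp de_pr dd_pr) (Primrec.const true)
  have lt : PrimrecPred (fun v => dg v < 2 + 2 * q) :=
    Primrec.nat_lt.comp dg_pr (Primrec.const _)
  unfold dgr
  exact Primrec.ite (e 0 dg_pr)
    (Primrec.ite o (Primrec.ite (e 0 dd_pr) (Primrec.const q) (Primrec.const (q + 1)))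
      (Primrec.const 0))
    (Primrec.ite (e 1 dg_pr) (Primrec.ite l (Primrec.const q) (Primrec.const 0))
      (Primrec.ite lt (Primrec.ite l (Primrec.const (q + 1)) (Primrec.const 0)) (Primrec.const 0)))

theorem highly {q : ℕ} (hq : 0 < q) : HighlyRecursive Set.univ (E q) where
  symm := E_symm q
  irrefl := E_irrefl q
  mem := fun _ _ _ => ⟨trivial, trivial⟩
  recV := ⟨fun _ => instDecidableTrue, (Computable.const true).of_eq (fun x => by simp)⟩
  recE := E_comp q
  locFin := E_fin hq
  recDeg := (dgr_pr q).to_comp.of_eq (fun v => (deg_eq hq v).symm)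

/-! ### the forcing argument -/

/-- a partition with bounded degrees -/
structure IsBip (G : ℕ → ℕ → Prop) (n1 n2 : ℕ) (V1 V2 : Set ℕ) : Prop where
  un : V1 ∪ V2 = Set.univ
  dis : Disjoint V1 V2
  d1 : ∀ x ∈ V1, degIn G V1 x ≤ n1
  d2 : ∀ x ∈ V2, degIn G V2 x ≤ n2

theorem IsBip.mem_or {G : ℕ → ℕ → Prop} {n1 n2 : ℕ} {V1 V2 : Set ℕ} (h : IsBip G n1 n2 V1 V2)
    (x : ℕ) : x ∈ V1 ∨ x ∈ V2 := by
  have : x ∈ V1 ∪ V2 := by rw [h.un]; trivial
  exact this

theorem IsBip.not_both {G : ℕ → ℕ → Prop} {n1 n2 : ℕ} {V1 V2 : Set ℕ} (h : IsBip G n1 n2 V1 V2)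
    {x : ℕ} (h1 : x ∈ V1) (h2 : x ∈ V2) : False :=
  Set.disjoint_left.mp h.dis h1 h2

theorem core_iff {n1 n2 : ℕ} {V1 V2 : Set ℕ} (hq : 0 < n1 + n2)
    (h : IsBip (E (n1 + n2)) n1 n2 V1 V2) {e d j g : ℕ} (hg : 2 ≤ g)
    (hg' : g < 2 + 2 * (n1 + n2)) (hl : leaf e d = true) :
    cd e d j g ∈ V1 ↔ degIn (E (n1 + n2)) V1 (cd e d j g) ≤ n1 := by
  have hs := deg_add (E_fin hq (cd e d j g)) h.un h.dis
  rw [deg_eq hq] at hs
  have hd : dgr (n1 + n2) (cd e d j g) = n1 + n2 + 1 := by
    have h0 : g ≠ 0 := by omega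
    have h1 : g ≠ 1 := by omega
    simp only [dgr, dg_cd, de_cd, dd_cd, h0, h1, hg', hl, if_true, if_false]
  rw [hd] at hs
  constructor
  · intro h1; exact h.d1 _ h1
  · intro h1
    rcases h.mem_or (cd e d j g) with h2 | h2
    · exact h2
    · have := h.d2 _ h2
      omega

open Classical in
theorem core_deg {q : ℕ} (hq : 0 < q) (W : Set ℕ) {e d j g : ℕ} (hg : 2 ≤ g)
    (hg' : g < 2 + 2 * q) (hl : leaf e d = true) :
    degIn (E q) W (cd e d j g) =
      ((Finset.Ico 2 (2 + 2 * q)).filter (fun g' => g' % 2 ≠ g % 2 ∧ cd e d j g' ∈ W)).card +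
        (if cd e d j (if g < 2 + q then 0 else 1) ∈ W then 1 else 0) := by
  rw [degIn_of_finset (nb q (cd e d j g)) (mem_nb hq _) W, nb_core q e d j g hg hg' hl,
    Finset.filter_insert, Finset.filter_image, Finset.filter_filter]
  have hc : ∀ (S : Finset ℕ), (S.image (fun g => cd e d j g)).card = S.card := fun S =>
    Finset.card_image_of_injective S (cd_inj4 e d j)
  split_ifs with h1 h2 h3
  · rw [Finset.card_insert_of_notMem, hc]
    simp only [Finset.mem_image, Finset.mem_filter, Finset.mem_Ico, cd_inj, not_exists, not_and]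
    intro x hx _ _ _ h
    omega
  · rw [hc]; simp
  · rw [Finset.card_insert_of_notMem, hc]
    simp only [Finset.mem_image, Finset.mem_filter, Finset.mem_Ico, cd_inj, not_exists, not_and]
    intro x hx _ _ _ h
    omega
  · rw [hc]; simp

/-- `n1 + 1` numbers of prescribed parity in an interval of length `≥ 2 n1 + 2` -/
theorem par_card {n1 s t p : ℕ} (h : s + 2 * n1 + 2 ≤ t) :
    n1 + 1 ≤ ((Finset.Ico s t).filter (fun g => g % 2 = p % 2)).card := by
  have hinj : ((Finset.range (n1 + 1)).image (fun i => s + (s + p) % 2 + 2 * i)).card = n1 + 1 := by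
    rw [Finset.card_image_of_injective, Finset.card_range]
    intro a b hab
    simp only at hab
    omega
  rw [← hinj]
  apply Finset.card_le_card
  intro x hx
  simp only [Finset.mem_image, Finset.mem_range, Finset.mem_filter, Finset.mem_Ico] at hx ⊢
  obtain ⟨i, hi, rfl⟩ := hx
  omega

open Classical in
/-- the gadget: the tree node of a leaf is never in `V1` -/
theorem gadget {n1 n2 : ℕ} (hn1 : 1 ≤ n1) (hn2 : n1 + 2 ≤ n2) {V1 V2 : Set ℕ}
    (h : IsBip (E (n1 + n2)) n1 n2 V1 V2) {e d j : ℕ} (hl : leaf e d = true) :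
    cd e d j 0 ∈ V2 := by
  have hq : 0 < n1 + n2 := by omega
  rcases h.mem_or (cd e d j 0) with h0 | h0
  swap
  · exact h0
  exfalso
  have hle := h.d1 _ h0
  -- too many neighbours
  have big : ∀ p : ℕ, (∀ g, 2 ≤ g → g < 2 + (n1 + n2) → g % 2 = p % 2 → cd e d j g ∈ V1) → False := by
    intro p hp
    have hS := le_deg (W := V1) (E_fin hq (cd e d j 0))
      (((Finset.Ico 2 (2 + (n1 + n2))).filter (fun g => g % 2 = p % 2)).image
        (fun g => cd e d j g)) (by
        intro y hy
        simp only [Finset.mem_image, Finset.mem_filter, Finset.mem_Ico] at hy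
        obtain ⟨g, ⟨⟨hg1, hg2⟩, hg3⟩, rfl⟩ := hy
        refine ⟨hp g hg1 hg2 hg3, ?_⟩
        rw [E_cd]
        left
        refine ⟨rfl, Or.inr ⟨rfl, rfl, hl, ?_⟩⟩
        unfold R; omega)
    rw [Finset.card_image_of_injective _ (cd_inj4 e d j)] at hS
    have := par_card (n1 := n1) (s := 2) (t := 2 + (n1 + n2)) (p := p) (by omega)
    omega
  -- the counts
  set cnt : ℕ → ℕ := fun p => ((Finset.Ico 2 (2 + 2 * (n1 + n2))).filter
    (fun g' => g' % 2 ≠ p % 2 ∧ cd e d j g' ∈ V1)).card with hcnt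
  have hdeg : ∀ g, 2 ≤ g → g < 2 + 2 * (n1 + n2) → (cd e d j g ∈ V1 ↔ cnt g +
      (if cd e d j (if g < 2 + (n1 + n2) then 0 else 1) ∈ V1 then 1 else 0) ≤ n1) := by
    intro g hg hg'
    rw [core_iff hq h hg hg' hl, core_deg hq V1 hg hg' hl]
  have hpar : ∀ g p, g % 2 = p % 2 → cnt g = cnt p := by
    intro g p hgp
    simp only [hcnt, hgp]
  -- both counts are large
  have h1 : ∀ p, n1 ≤ cnt p := by
    intro p
    by_contra hcon
    push Not at hcon
    apply big p
    intro g hg1 hg2 hg3
    rw [hdeg g hg1 (by omega), hpar g p hg3]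
    split_ifs
    all_goals omega
  -- the first half of the core is in V2
  have h2 : ∀ g, 2 ≤ g → g < 2 + (n1 + n2) → cd e d j g ∉ V1 := by
    intro g hg1 hg2
    rw [hdeg g hg1 (by omega), if_pos hg2, if_pos h0]
    have := h1 g
    omega
  -- an even and an odd member of V1 in the second half
  have h3 : ∀ p, ∀ g, 2 + (n1 + n2) ≤ g → g < 2 + 2 * (n1 + n2) → g % 2 ≠ p % 2 →
      cd e d j g ∈ V1 := by
    intro p g hg1 hg2 hg3
    have hpos : 0 < cnt p := by have := h1 p; omega
    obtain ⟨g', hg'⟩ := Finset.card_pos.mp hpos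
    simp only [Finset.mem_filter, Finset.mem_Ico] at hg'
    have hg'2 : 2 + (n1 + n2) ≤ g' := by
      by_contra hc
      exact h2 g' hg'.1.1 (by omega) hg'.2.2
    have := (hdeg g' (by omega) (by omega)).mp hg'.2.2
    rw [if_neg (show ¬ g' < 2 + (n1 + n2) by omega), hpar g' g (by omega)] at this
    rw [hdeg g (by omega) hg2, if_neg (show ¬ g < 2 + (n1 + n2) by omega)]
    exact this
  -- the count of the class of even numbers is then large
  have h4 : n1 + 1 ≤ cnt 0 := by
    refine le_trans (par_card (n1 := n1) (s := 2 + (n1 + n2)) (t := 2 + 2 * (n1 + n2)) (p := 1)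
      (by omega)) ?_
    apply Finset.card_le_card
    intro g hg
    simp only [Finset.mem_filter, Finset.mem_Ico] at hg ⊢
    exact ⟨⟨by omega, by omega⟩, by omega, h3 0 g (by omega) (by omega) (by omega)⟩
  -- so no even number is in V1
  have hpos : 0 < cnt 1 := by have := h1 1; omega
  obtain ⟨g', hg'⟩ := Finset.card_pos.mp hpos
  simp only [Finset.mem_filter, Finset.mem_Ico] at hg'
  have := (hdeg g' (by omega) (by omega)).mp hg'.2.2
  rw [hpar g' 0 (by omega)] at this
  omega

/-- propagation towards the roots -/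
theorem propagate {n1 n2 : ℕ} (hn1 : 1 ≤ n1) (hn2 : n1 + 2 ≤ n2) {V1 V2 : Set ℕ}
    (h : IsBip (E (n1 + n2)) n1 n2 V1 V2) {e N : ℕ} (hl : leaf e N = true) :
    ∀ t, t ≤ N → ∀ j, (t % 2 = 0 → cd e (N - t) j 0 ∈ V2) ∧
      (t % 2 = 1 → cd e (N - t) j 0 ∈ V1) := by
  have hq : 0 < n1 + n2 := by omega
  have hopn : ∀ t, opn e (N - t) = true := by
    intro t
    induction t with
    | zero => exact ((leaf_iff e N).mp hl).1
    | succ t ih =>
      by_cases hNt : N - t = 0
      · have : N - (t + 1) = N - t := by omega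
        rw [this]; exact ih
      · have : N - t = (N - (t + 1)) + 1 := by omega
        rw [this, opn_succ] at ih
        exact ih.1
  -- children
  have hch : ∀ d j, opn e (d + 1) = true → ∀ W : Set ℕ,
      (∀ j', cd e (d + 1) j' 0 ∈ W) → n1 + n2 ≤ degIn (E (n1 + n2)) W (cd e d j 0) := by
    intro d j ho W hW
    have hS := le_deg (W := W) (E_fin hq (cd e d j 0))
      ((Finset.range (n1 + n2)).image (fun i => cd e (d + 1) ((n1 + n2) * j + i) 0)) (by
        intro y hy
        simp only [Finset.mem_image, Finset.mem_range] at hy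
        obtain ⟨i, hi, rfl⟩ := hy
        refine ⟨hW _, ?_⟩
        rw [E_cd]
        left
        refine ⟨rfl, Or.inl ⟨rfl, rfl, rfl, ?_, ho⟩⟩
        rw [Nat.mul_add_div hq, Nat.div_eq_of_lt hi, Nat.add_zero])
    rwa [Finset.card_image_of_injective, Finset.card_range] at hS
    intro a b hab
    have := (cd_inj.mp hab).2.2.1
    omega
  intro t
  induction t with
  | zero =>
    intro _ j
    refine ⟨fun _ => ?_, fun h => by omega⟩
    exact gadget hn1 hn2 h hl
  | succ t ih =>
    intro ht j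
    have ih' := ih (by omega)
    have hN : N - t = (N - (t + 1)) + 1 := by omega
    have ho : opn e ((N - (t + 1)) + 1) = true := by rw [← hN]; exact hopn t
    constructor
    · intro hp
      rcases h.mem_or (cd e (N - (t + 1)) j 0) with h1 | h1
      · exfalso
        have := hch (N - (t + 1)) j ho V1 (fun j' => by rw [← hN]; exact (ih' j').2 (by omega))
        have h2 := h.d1 _ h1
        omega
      · exact h1
    · intro hp
      rcases h.mem_or (cd e (N - (t + 1)) j 0) with h1 | h1
      · exact h1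
      · exfalso
        have := hch (N - (t + 1)) j ho V2 (fun j' => by rw [← hN]; exact (ih' j').1 (by omega))
        have h2 := h.d2 _ h1
        omega

theorem C_iff (e d : ℕ) : C e d = true ↔
    ∃ i, i ∈ evaln d (Denumerable.ofNat Code e) (cd e 0 0 0) ∧ (i + d) % 2 = 1 := by
  unfold C
  cases h : evaln d (Denumerable.ofNat Code e) (cd e 0 0 0) with
  | none => simp
  | some i => simp

theorem no_bip {n1 n2 : ℕ} (hn1 : 1 ≤ n1) (hn2 : n1 + 2 ≤ n2) {V1 V2 : Set ℕ}
    (h : IsBip (E (n1 + n2)) n1 n2 V1 V2) (hr : RecSet V1) : False := by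
  classical
  obtain ⟨hdec, hc⟩ := hr
  -- a code of the characteristic function
  have hpart : Nat.Partrec (fun x => Part.some (if x ∈ V1 then 1 else 0)) := by
    have h1 : Computable (fun x => if x ∈ V1 then 1 else 0 : ℕ → ℕ) := by
      have := Computable.cond hc (Computable.const 1) (Computable.const 0)
      refine this.of_eq (fun x => ?_)
      by_cases hx : x ∈ V1 <;> simp [hx]
    exact Partrec.nat_iff.mp h1.partrec
  obtain ⟨c, hcode⟩ := exists_code.mp hpart
  set e := Encodable.encode c with he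
  have hof : Denumerable.ofNat Code e = c := Denumerable.ofNat_encode c
  obtain ⟨i, hi, hiV⟩ : ∃ i : ℕ, i ∈ eval c (cd e 0 0 0) ∧ ((i = 1 ∧ cd e 0 0 0 ∈ V1) ∨
      (i = 0 ∧ cd e 0 0 0 ∉ V1)) := by
    rw [hcode]
    by_cases hx : cd e 0 0 0 ∈ V1
    · exact ⟨1, by simp [hx], Or.inl ⟨rfl, hx⟩⟩
    · exact ⟨0, by simp [hx], Or.inr ⟨rfl, hx⟩⟩
  obtain ⟨k, hk⟩ := evaln_complete.mp hi
  -- there is a closing depth
  have hex : ∃ d, C e d = true := by
    by_cases hp : (i + k) % 2 = 1
    · exact ⟨k, (C_iff e k).mpr ⟨i, by rw [hof]; exact hk, hp⟩⟩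
    · exact ⟨k + 1, (C_iff e (k + 1)).mpr ⟨i, by rw [hof]; exact evaln_mono (Nat.le_succ k) hk,
        by omega⟩⟩
  have hN := Nat.find_spec hex
  set N := Nat.find hex with hNdef
  have hopn : ∀ d, d ≤ N → opn e d = true := by
    intro d
    induction d with
    | zero => intro _; rfl
    | succ d ih =>
      intro hd
      rw [opn_succ]
      exact ⟨ih (by omega), Nat.find_min hex (by omega)⟩
  have hl : leaf e N = true := (leaf_iff e N).mpr ⟨hopn N le_rfl, hN⟩
  obtain ⟨i', hi', hpar⟩ := (C_iff e N).mp hN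
  have hii : i' = i := by
    rw [hof] at hi'
    exact Part.mem_unique (evaln_sound hi') hi
  subst hii
  have hprop := propagate hn1 hn2 h hl N le_rfl 0
  rw [Nat.sub_self] at hprop
  rcases hiV with ⟨rfl, hx⟩ | ⟨rfl, hx⟩
  · exact h.not_both hx (hprop.1 (by omega))
  · exact hx (hprop.2 (by omega))

theorem degIn_max (q : ℕ) (hq : 0 < q) :
    IsGreatest (Set.range (degIn (E q) Set.univ)) (q + 1) := by
  constructor
  · refine ⟨cd 0 1 0 0, ?_⟩
    rw [deg_eq hq]
    have : opn 0 1 = true := by rw [opn_succ]; exact ⟨rfl, by rw [C_zero]; simp⟩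
    simp [dgr, this]
  · rintro _ ⟨v, rfl⟩
    rw [deg_eq hq]
    exact dgr_le q v

/-- **Lovász's partition theorem has no effective version.**

For all `n1 ≥ 2` and `n2 ≥ n1 + 2` there is a highly recursive graph `G` with vertex set `ℕ`
and maximum degree `Δ(G) = n1 + n2 - 1` for which there are no recursive sets `V1, V2`
partitioning the vertex set with all degrees `< n1` inside `V1` and all degrees `< n2` inside `V2`
(such a partition exists, without effectivity, by Lovász's theorem). -/
theorem result :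
    ∀ n1 n2 : ℕ, 2 ≤ n1 → n1 + 2 ≤ n2 →
      ∃ G : ℕ → ℕ → Prop, HighlyRecursive Set.univ G ∧
        IsGreatest (Set.range (fun x => degIn G Set.univ x)) (n1 + n2 - 1) ∧
        ¬ ∃ V1 V2 : Set ℕ, RecSet V1 ∧ RecSet V2 ∧ V1 ∪ V2 = Set.univ ∧ Disjoint V1 V2 ∧
          (∀ x ∈ V1, degIn G V1 x < n1) ∧ (∀ x ∈ V2, degIn G V2 x < n2) := by
  intro n1 n2 h1 h2
  obtain ⟨a, rfl⟩ : ∃ a, n1 = a + 1 := ⟨n1 - 1, by omega⟩
  obtain ⟨b, rfl⟩ : ∃ b, n2 = b + 1 := ⟨n2 - 1, by omega⟩
  refine ⟨E (a + b), highly (by omega), ?_, ?_⟩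
  · have := degIn_max (a + b) (by omega)
    have e : a + 1 + (b + 1) - 1 = a + b + 1 := by omega
    rw [e]; exact this
  · rintro ⟨V1, V2, r1, -, hu, hd, h3, h4⟩
    exact no_bip (n1 := a) (n2 := b) (by omega) (by omega)
      ⟨hu, hd, fun x hx => Nat.lt_succ_iff.mp (h3 x hx), fun x hx => Nat.lt_succ_iff.mp (h4 x hx)⟩
      r1

end Pool.Agent.Results.MP_fbc7b8_lc.NoEffectiveLovasz
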